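import Pool.Agent.SGL.StmtsA

/-!
# Squad SGL (MP_41797f_co), row CLA
-/

set_option autoImplicit false

namespace Pool.Agent.SGL.H51

open Pool.Agent.SGL

/-- **CLA** -/
theorem cla (cnt : CntStmt) (fok : FokStmt) : ClaStmt := by
  intro V _ G R E Φ a x y z hG hM hN hax hay haz hxy
  obtain ⟨u, hu⟩ := hM.1.sph.ex hN.1
  obtain ⟨v, hv⟩ := hM.1.sph.ex (hM.1.sph.sym _ _ hN.1)
  have hO := fok hG hM.1 hN hxy hu hv
  have hle := hM.2 _ _ hO
  obtain ⟨-, c2, c3⟩ := cnt (a := a) hM.1.sph hN hax hay haz hu hv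
  have h4 : E z u ∧ E z v ∧ a ≠ u ∧ a ≠ v := by
    by_contra h
    exact absurd (c2 h) (not_lt.2 hle)
  refine ⟨fun z' h1 h2 => ?_, ?_⟩
  · by_contra h3
    exact absurd (c3 z' h1 h2 h3) (not_lt.2 hle)
  · rintro w (hw | hw)
    · have e := hM.1.sph.fn _ _ _ _ hw hu
      subst e
      exact ⟨h4.1, h4.2.2.1⟩
    · have e := hM.1.sph.fn _ _ _ _ hw hv
      subst e
      exact ⟨h4.2.1, h4.2.2.2⟩

end Pool.Agent.SGL.H51
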